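import Mathlib
import Pool.Agent.Y16.AF.StmB

set_option autoImplicit false

/-! The symbol without background field: the entries (job AF2-SYM0). -/

namespace Pool.Agent.Y564.AF

open Matrix Finset
open Pool.Agent.Y16.AF

noncomputable section

variable {L : ℕ}

theorem vT_eq (t : Fin L) : vT L (t : ℕ) = some (.inl t) := by
  unfold vT
  rw [dif_pos t.2]

theorem vT_inr (n : ℕ) (a : Fin (L - 1) × Fin 3) : vT L n ≠ some (.inr a) := by
  unfold vT
  split_ifs <;> simp

theorem vS_inl (n : ℕ) (j : Fin 3) (t : Fin L) : vS L n j ≠ some (.inl t) := by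
  unfold vS
  split_ifs <;> simp

theorem vS_inr (n : ℕ) (j j' : Fin 3) (s : Fin (L - 1)) :
    vS L n j = some (.inr (s, j')) ↔ n = s + 1 ∧ j = j' := by
  have := s.2
  unfold vS
  split_ifs with h
  · rw [Option.some_inj, Sum.inr.injEq, Prod.mk.injEq, Fin.ext_iff]
    simp only
    constructor
    · rintro ⟨h1, h2⟩; exact ⟨by omega, h2⟩
    · rintro ⟨h1, h2⟩; exact ⟨by omega, h2⟩
  · simp only [reduceCtorEq, false_iff, not_and]
    intro h1
    omega

/-- the value of the plaquette `(t, κ)` on the link `a` -/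
def uu (z : Fin 3 → ℂ) (t : Fin L) (κ : Fin 3 ⊕ Fin 3) (a : AL L) : ℂ :=
  ∑ i, inl1 t κ i a * lz z κ i

theorem uu_tt (z : Fin 3 → ℂ) (t t' : Fin L) (j : Fin 3) :
    uu z t (.inl j) (.inl t') = if t = t' then 1 - z j else 0 := by
  unfold uu inl1
  rw [Fin.sum_univ_four]
  have h0 : lv t (.inl j) 0 = vT L t := rfl
  have h1 : lv t (.inl j) 1 = vS L t j := rfl
  have h2 : lv t (.inl j) 2 = vT L t := rfl
  have h3 : lv t (.inl j) 3 = vS L (t + 1) j := rfl
  have s0 : sg (.inl j) 0 = -1 := by simp [sg, sb]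
  have s2 : sg (.inl j) 2 = 1 := by simp [sg, sb]
  have z0 : lz z (.inl j) 0 = z j := rfl
  have z2 : lz z (.inl j) 2 = 1 := rfl
  rw [h0, h1, h2, h3, vT_eq, if_neg (vS_inl _ _ _), if_neg (vS_inl _ _ _), s0, s2, z0, z2]
  by_cases h : t = t'
  · rw [if_pos (by rw [h]), if_pos (by rw [h]), if_pos h]
    push_cast
    ring
  · rw [if_neg, if_neg, if_neg h]
    · ring
    · simpa using h
    · simpa using h

/-- incidence of the links and the sites of an interval -/
def bb (t s : ℕ) : ℂ := (if s = t then 1 else 0) - (if s + 1 = t then 1 else 0)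

theorem uu_ts (z : Fin 3 → ℂ) (t : Fin L) (j j' : Fin 3) (s : Fin (L - 1)) :
    uu z t (.inl j) (.inr (s, j')) = if j = j' then bb t s else 0 := by
  unfold uu inl1
  rw [Fin.sum_univ_four]
  have h0 : lv t (.inl j) 0 = vT L t := rfl
  have h1 : lv t (.inl j) 1 = vS L t j := rfl
  have h2 : lv t (.inl j) 2 = vT L t := rfl
  have h3 : lv t (.inl j) 3 = vS L (t + 1) j := rfl
  have s1 : sg (.inl j) 1 = -1 := by simp [sg, sb]
  have s3 : sg (.inl j) 3 = 1 := by simp [sg, sb]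
  have z1 : lz z (.inl j) 1 = 1 := rfl
  have z3 : lz z (.inl j) 3 = 1 := rfl
  rw [h0, h1, h2, h3, s1, s3, z1, z3]
  simp only [vS_inr, vT_inr, if_false, zero_mul, add_zero, zero_add]
  unfold bb
  by_cases h : j = j'
  · simp only [h, and_true, if_true]
    split_ifs <;> first | omega | (push_cast; ring)
  · simp only [h, and_false, if_false]
    ring

theorem uu_st (z : Fin 3 → ℂ) (t t' : Fin L) (m : Fin 3) : uu z t (.inr m) (.inl t') = 0 := by
  unfold uu inl1
  rw [Fin.sum_univ_four]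
  have h0 : lv t (.inr m) 0 = vS L t (pi2 m) := rfl
  have h1 : lv t (.inr m) 1 = vS L t (pi1 m) := rfl
  have h2 : lv t (.inr m) 2 = vS L t (pi2 m) := rfl
  have h3 : lv t (.inr m) 3 = vS L t (pi1 m) := rfl
  rw [h0, h1, h2, h3]
  simp only [vS_inl, if_false, zero_mul, add_zero]

theorem uu_ss (z : Fin 3 → ℂ) (t : Fin L) (m j : Fin 3) (s : Fin (L - 1)) :
    uu z t (.inr m) (.inr (s, j)) = if (t : ℕ) = s + 1 then
      (if pi2 m = j then z (pi1 m) - 1 else 0) - (if pi1 m = j then z (pi2 m) - 1 else 0)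
      else 0 := by
  unfold uu inl1
  rw [Fin.sum_univ_four]
  have h0 : lv t (.inr m) 0 = vS L t (pi2 m) := rfl
  have h1 : lv t (.inr m) 1 = vS L t (pi1 m) := rfl
  have h2 : lv t (.inr m) 2 = vS L t (pi2 m) := rfl
  have h3 : lv t (.inr m) 3 = vS L t (pi1 m) := rfl
  have s0 : sg (.inr m) 0 = 1 := by simp [sg, sb]
  have s1 : sg (.inr m) 1 = -1 := by simp [sg, sb]
  have s2 : sg (.inr m) 2 = -1 := by simp [sg, sb]
  have s3 : sg (.inr m) 3 = 1 := by simp [sg, sb]
  have z0 : lz z (.inr m) 0 = z (pi1 m) := rfl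
  have z1 : lz z (.inr m) 1 = z (pi2 m) := rfl
  have z2 : lz z (.inr m) 2 = 1 := rfl
  have z3 : lz z (.inr m) 3 = 1 := rfl
  rw [h0, h1, h2, h3, s0, s1, s2, s3, z0, z1, z2, z3]
  simp only [vS_inr]
  by_cases h : (t : ℕ) = s + 1
  · simp only [h, true_and, if_true]
    split_ifs <;> (push_cast; ring)
  · simp only [h, false_and, if_false]
    ring

/-- the weight of the plane `κ` -/
def wt (lam : ℝ) (κ : Fin 3 ⊕ Fin 3) : ℂ := if κ = .inl 0 then (1 + lam : ℂ) else 1

theorem inl1_conj (t : Fin L) (κ : Fin 3 ⊕ Fin 3) (i : Fin 4) (a : AL L) :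
    (starRingEnd ℂ) (inl1 t κ i a) = inl1 t κ i a := by
  unfold inl1
  split_ifs <;> simp

theorem hL0_eq (lam : ℝ) (z : Fin 3 → ℂ) (a b : AL L) :
    hL0 lam z a b = ∑ t : Fin L, ∑ κ, wt lam κ * ((starRingEnd ℂ) (uu z t κ a) * uu z t κ b) := by
  unfold hL0
  refine Finset.sum_congr rfl fun t _ => Finset.sum_congr rfl fun κ _ => ?_
  unfold uu
  rw [map_sum, Finset.sum_mul_sum, Finset.mul_sum]
  refine Finset.sum_congr rfl fun i _ => ?_
  rw [Finset.mul_sum]
  refine Finset.sum_congr rfl fun j _ => ?_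
  rw [map_mul, inl1_conj]
  unfold wt
  ring

end

end Pool.Agent.Y564.AF
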