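import Mathlib
import Pool.Agent.Y564.AF.SymA
import Pool.Agent.Y839.AF.Blk
import Pool.Agent.Y153.AF.LD2

set_option autoImplicit false

/-! The gauge transformations and the symbol at `lam = 0` (job AF2-SYM0). -/

namespace Pool.Agent.Y564.AF

open Matrix Finset
open Pool.Agent.Y16.AF
open scoped Kronecker

noncomputable section

variable {L : ℕ}

theorem sum_bb_left (s : Fin (L - 1)) (g : ℕ → ℂ) :
    ∑ t : Fin L, bb t s * g t = g s - g (s + 1) := by
  have hs := s.2
  have h1 : ∀ t : Fin L, bb t s * g t =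
      (if (t : ℕ) = s then g t else 0) - (if (t : ℕ) = s + 1 then g t else 0) := by
    intro t
    unfold bb
    split_ifs <;> first | omega | ring
  rw [Finset.sum_congr rfl fun t _ => h1 t, Finset.sum_sub_distrib,
    Y839.AF.sum_ind L s g, Y839.AF.sum_ind L (s + 1) g, if_pos (by omega), if_pos (by omega)]

theorem sum_bb_right (t : Fin L) (g : ℕ → ℂ) :
    ∑ s : Fin (L - 1), bb t s * g s =
      (if (t : ℕ) + 1 < L then g t else 0) - (if 0 < (t : ℕ) then g (t - 1) else 0) := by
  have ht := t.2
  have h1 : ∀ s : Fin (L - 1), bb t s * g s =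
      (if (s : ℕ) = t then g s else 0) -
        (if 0 < (t : ℕ) then (if (s : ℕ) = t - 1 then g s else 0) else 0) := by
    intro s
    unfold bb
    split_ifs <;> first | omega | ring
  rw [Finset.sum_congr rfl fun t _ => h1 t, Finset.sum_sub_distrib,
    Y839.AF.sum_ind (L - 1) t g]
  congr 1
  · split_ifs <;> first | omega | rfl
  · split_ifs with h
    · rw [Y839.AF.sum_ind (L - 1) (t - 1) g, if_pos (by omega)]
    · simp

theorem bb_conj (t s : ℕ) : (starRingEnd ℂ) (bb t s) = bb t s := by
  unfold bb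
  split_ifs <;> simp

/-- the gauge transformations -/
def DD (L : ℕ) (z : Fin 3 → ℂ) : Matrix (AL L) (Fin (L - 1)) ℂ := Matrix.of fun a s =>
  match a with
  | .inl t => bb t s
  | .inr (s', j) => if s' = s then z j - 1 else 0

theorem DD_inl (z : Fin 3 → ℂ) (t : Fin L) (s : Fin (L - 1)) : DD L z (.inl t) s = bb t s := rfl

theorem DD_inr (z : Fin 3 → ℂ) (s' s : Fin (L - 1)) (j : Fin 3) :
    DD L z (.inr (s', j)) s = if s' = s then z j - 1 else 0 := rfl

/-- the plaquettes do not see gauge transformations -/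
theorem uu_DD (z : Fin 3 → ℂ) (t : Fin L) (κ : Fin 3 ⊕ Fin 3) (s : Fin (L - 1)) :
    ∑ b, uu z t κ b * DD L z b s = 0 := by
  rw [Fintype.sum_sum_type, Fintype.sum_prod_type]
  cases κ with
  | inl j =>
    have h1 : ∑ t' : Fin L, uu z t (.inl j) (.inl t') * DD L z (.inl t') s =
        (1 - z j) * bb t s := by
      simp only [uu_tt, DD_inl, ite_mul, zero_mul]
      rw [Finset.sum_ite_eq, if_pos (Finset.mem_univ _)]
    have h2 : ∑ s' : Fin (L - 1), ∑ j' : Fin 3,
        uu z t (.inl j) (.inr (s', j')) * DD L z (.inr (s', j')) s = bb t s * (z j - 1) := by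
      rw [Finset.sum_eq_single s]
      · simp only [uu_ts, DD_inr, if_true, ite_mul, zero_mul]
        rw [Finset.sum_ite_eq, if_pos (Finset.mem_univ _)]
      · intro b _ hb
        simp [DD_inr, hb]
      · simp
    rw [h1, h2]
    ring
  | inr m =>
    simp only [uu_st, uu_ss, DD_inl, DD_inr, ite_mul, zero_mul, mul_ite, mul_zero,
      Finset.sum_const_zero, zero_add, Finset.sum_ite_eq, Finset.sum_ite_eq', Finset.mem_univ,
      if_true, Fin.sum_univ_three]
    rw [Finset.sum_eq_single s]
    · rw [if_pos rfl, if_pos rfl, if_pos rfl]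
      by_cases h : (t : ℕ) = s + 1
      · simp only [h, if_true]
        fin_cases m <;> simp [pi1, pi2] <;> ring
      · simp [h]
    · intro b _ hb
      simp [hb]
    · simp

theorem hL0_DD (lam : ℝ) (z : Fin 3 → ℂ) :
    (Matrix.of (hL0 (L := L) lam z)) * DD L z = 0 := by
  ext a s
  rw [Matrix.mul_apply, Matrix.zero_apply]
  have h1 : ∀ b, Matrix.of (hL0 (L := L) lam z) a b * DD L z b s =
      ∑ t : Fin L, ∑ κ, wt lam κ * (starRingEnd ℂ) (uu z t κ a) * (uu z t κ b * DD L z b s) := by
    intro b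
    rw [Matrix.of_apply, hL0_eq, Finset.sum_mul]
    refine Finset.sum_congr rfl fun t _ => ?_
    rw [Finset.sum_mul]
    refine Finset.sum_congr rfl fun κ _ => ?_
    ring
  rw [Finset.sum_congr rfl fun b _ => h1 b, Finset.sum_comm]
  refine Finset.sum_eq_zero fun t _ => ?_
  rw [Finset.sum_comm]
  refine Finset.sum_eq_zero fun κ _ => ?_
  rw [← Finset.mul_sum, uu_DD, mul_zero]

theorem wt_conj (lam : ℝ) (κ : Fin 3 ⊕ Fin 3) : (starRingEnd ℂ) (wt lam κ) = wt lam κ := by
  unfold wt
  split_ifs <;> simp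

theorem hL0_herm (lam : ℝ) (z : Fin 3 → ℂ) :
    (Matrix.of (hL0 (L := L) lam z))ᴴ = Matrix.of (hL0 (L := L) lam z) := by
  ext a b
  rw [Matrix.conjTranspose_apply, Matrix.of_apply, Matrix.of_apply, hL0_eq, hL0_eq,
    ← starRingEnd_apply, map_sum]
  refine Finset.sum_congr rfl fun t _ => ?_
  rw [map_sum]
  refine Finset.sum_congr rfl fun κ _ => ?_
  rw [map_mul, map_mul, wt_conj, Complex.conj_conj]
  ring

theorem DD_hL0 (lam : ℝ) (z : Fin 3 → ℂ) :
    (DD L z)ᴴ * (Matrix.of (hL0 (L := L) lam z)) = 0 := by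
  have h := congrArg Matrix.conjTranspose (hL0_DD (L := L) lam z)
  rwa [Matrix.conjTranspose_mul, hL0_herm, Matrix.conjTranspose_zero] at h

/-! ### the matrix at `lam = 0` -/

theorem nsq (x : ℂ) : (starRingEnd ℂ) x * x = ((‖x‖ ^ 2 : ℝ) : ℂ) := by
  rw [mul_comm, Complex.mul_conj, Complex.normSq_eq_norm_sq]

/-- `|d|²` -/
def cz (z : Fin 3 → ℂ) : ℂ := ∑ j, (starRingEnd ℂ) (z j - 1) * (z j - 1)

/-- the Laplacian with Dirichlet conditions -/
theorem bb_D (s s' : Fin (L - 1)) : ∑ t : Fin L, bb t s * bb t s' =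
    if s = s' then 2 else if (s : ℕ) = s' + 1 ∨ (s' : ℕ) = s + 1 then -1 else 0 := by
  rw [sum_bb_left s (fun t => bb t s')]
  unfold bb
  by_cases h : s = s'
  · subst h
    simp
    norm_num
  · have h' : (s : ℕ) ≠ s' := fun he => h (Fin.ext he)
    rw [if_neg h]
    split_ifs <;> first | omega | norm_num

/-- the Laplacian with Neumann conditions -/
theorem bb_N (t t' : Fin L) : ∑ s : Fin (L - 1), bb t s * bb t' s =
    if t = t' then ((if 0 < (t' : ℕ) then 1 else 0) + (if (t' : ℕ) + 1 < L then 1 else 0))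
      else if (t : ℕ) = t' + 1 ∨ (t' : ℕ) = t + 1 then -1 else 0 := by
  have ht := t.2
  have ht' := t'.2
  rw [sum_bb_right t (fun s => bb t' s)]
  unfold bb
  by_cases h : t = t'
  · subst h
    rw [if_pos rfl]
    split_ifs <;> first | omega | norm_num
  · have h' : (t : ℕ) ≠ t' := fun he => h (Fin.ext he)
    rw [if_neg h]
    split_ifs <;> first | omega | norm_num

theorem wt_zero (κ : Fin 3 ⊕ Fin 3) : wt 0 κ = 1 := by
  unfold wt
  split_ifs <;> simp

theorem conj_one_sub (x : ℂ) : (starRingEnd ℂ) (1 - x) * (1 - x) =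
    (starRingEnd ℂ) (x - 1) * (x - 1) := by
  rw [map_sub, map_sub]
  ring

/-- the matrix at `lam = 0` -/
theorem M0_eq (z : Fin 3 → ℂ) :
    Matrix.of (hL0 (L := L) 0 z) + DD L z * (DD L z)ᴴ = Matrix.fromBlocks
      (Y839.AF.KK L fun t => (cz z + (if 0 < t then 1 else 0) + (if t + 1 < L then 1 else 0))) 0 0
      ((Y839.AF.KK (L - 1) fun _ => 2 + cz z) ⊗ₖ (1 : Matrix (Fin 3) (Fin 3) ℂ)) := by
  ext a b
  rw [Matrix.add_apply, Matrix.of_apply, hL0_eq, Matrix.mul_apply]
  simp only [wt_zero, one_mul, Matrix.conjTranspose_apply, ← starRingEnd_apply,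
    Fintype.sum_sum_type]
  rcases a with t | ⟨s, j⟩ <;> rcases b with t' | ⟨s', j'⟩
  · rw [Matrix.fromBlocks_apply₁₁]
    simp only [uu_tt, uu_st, DD_inl, bb_conj, map_zero, zero_mul, Finset.sum_const_zero, add_zero]
    rw [bb_N]
    unfold Y839.AF.KK
    rw [Matrix.of_apply]
    have h1 : ∀ u : Fin L, ∑ j : Fin 3, (starRingEnd ℂ) (if u = t then 1 - z j else 0) *
        (if u = t' then 1 - z j else 0) = if u = t then (if t = t' then cz z else 0) else 0 := by
      intro u
      unfold cz
      by_cases h : u = t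
      · subst h
        by_cases h2 : u = t'
        · simp only [h2, if_true]
          exact Finset.sum_congr rfl fun j _ => conj_one_sub _
        · simp [h2]
      · simp [h]
    rw [Finset.sum_congr rfl fun u _ => h1 u, Finset.sum_ite_eq' Finset.univ t,
      if_pos (Finset.mem_univ _)]
    by_cases h : t = t'
    · simp only [h, if_true]
      ring
    · simp only [h, if_false]
      ring
  · rw [Matrix.fromBlocks_apply₁₂, Matrix.zero_apply]
    have h1 : ∀ u : Fin L, (∑ j : Fin 3, (starRingEnd ℂ) (uu z u (.inl j) (.inl t)) *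
        uu z u (.inl j) (.inr (s', j'))) + ∑ m : Fin 3, (starRingEnd ℂ) (uu z u (.inr m) (.inl t)) *
        uu z u (.inr m) (.inr (s', j')) =
        if u = t then (starRingEnd ℂ) (1 - z j') * bb t s' else 0 := by
      intro u
      simp only [uu_tt, uu_ts, uu_st, map_zero, zero_mul, Finset.sum_const_zero, add_zero]
      by_cases h : u = t
      · subst h
        simp only [if_true, mul_ite, mul_zero]
        rw [Finset.sum_ite_eq', if_pos (Finset.mem_univ _)]
      · simp [h]
    have h2 : ∑ x : Fin (L - 1), DD L z (.inl t) x * (starRingEnd ℂ) (DD L z (.inr (s', j')) x) =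
        bb t s' * (starRingEnd ℂ) (z j' - 1) := by
      simp only [DD_inl, DD_inr, apply_ite (starRingEnd ℂ), map_zero, mul_ite, mul_zero]
      rw [Finset.sum_ite_eq, if_pos (Finset.mem_univ _)]
    rw [Finset.sum_congr rfl fun u _ => h1 u, Finset.sum_ite_eq', if_pos (Finset.mem_univ _), h2]
    rw [map_sub, map_sub, map_one]
    ring
  · rw [Matrix.fromBlocks_apply₂₁, Matrix.zero_apply]
    have h1 : ∀ u : Fin L, (∑ j' : Fin 3, (starRingEnd ℂ) (uu z u (.inl j') (.inr (s, j))) *
        uu z u (.inl j') (.inl t')) + ∑ m : Fin 3, (starRingEnd ℂ) (uu z u (.inr m) (.inr (s, j))) *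
        uu z u (.inr m) (.inl t') =
        if u = t' then bb t' s * (1 - z j) else 0 := by
      intro u
      simp only [uu_tt, uu_ts, uu_st, mul_zero, Finset.sum_const_zero, add_zero]
      by_cases h : u = t'
      · subst h
        simp only [if_true, apply_ite (starRingEnd ℂ), bb_conj, map_zero, ite_mul, zero_mul]
        rw [Finset.sum_ite_eq', if_pos (Finset.mem_univ _)]
      · simp [h]
    have h2 : ∑ x : Fin (L - 1), DD L z (.inr (s, j)) x * (starRingEnd ℂ) (DD L z (.inl t') x) =
        (z j - 1) * bb t' s := by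
      simp only [DD_inl, DD_inr, bb_conj, ite_mul, zero_mul]
      rw [Finset.sum_ite_eq, if_pos (Finset.mem_univ _)]
    rw [Finset.sum_congr rfl fun u _ => h1 u, Finset.sum_ite_eq', if_pos (Finset.mem_univ _), h2]
    ring
  · rw [Matrix.fromBlocks_apply₂₂, Matrix.kronecker_apply, Matrix.one_apply]
    have h1 : ∑ x : Fin L, (∑ x_1 : Fin 3, (starRingEnd ℂ) (uu z x (.inl x_1) (.inr (s, j))) *
        uu z x (.inl x_1) (.inr (s', j'))) = if j = j' then
          (if s = s' then 2 else if (s : ℕ) = s' + 1 ∨ (s' : ℕ) = s + 1 then -1 else 0) else 0 := by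
      have h2 : ∀ x : Fin L, (∑ x_1 : Fin 3, (starRingEnd ℂ) (uu z x (.inl x_1) (.inr (s, j))) *
        uu z x (.inl x_1) (.inr (s', j'))) = if j = j' then bb x s * bb x s' else 0 := by
        intro x
        simp only [uu_ts, apply_ite (starRingEnd ℂ), bb_conj, map_zero, ite_mul, zero_mul, mul_ite,
          mul_zero]
        rw [Finset.sum_ite_eq', if_pos (Finset.mem_univ _)]
        by_cases h : j = j'
        · simp [h]
        · simp [h, Ne.symm h]
      rw [Finset.sum_congr rfl fun x _ => h2 x]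
      by_cases h : j = j'
      · simp only [h, if_true]
        exact bb_D s s'
      · simp [h]
    have h3 : ∑ x : Fin L, (∑ x_1 : Fin 3, (starRingEnd ℂ) (uu z x (.inr x_1) (.inr (s, j))) *
        uu z x (.inr x_1) (.inr (s', j'))) + ∑ x : Fin (L - 1), DD L z (.inr (s, j)) x *
          (starRingEnd ℂ) (DD L z (.inr (s', j')) x) = if s = s' then (if j = j' then cz z else 0)
          else 0 := by
      have h4 : ∀ x : Fin L, (∑ x_1 : Fin 3, (starRingEnd ℂ) (uu z x (.inr x_1) (.inr (s, j))) *
        uu z x (.inr x_1) (.inr (s', j'))) = if (x : ℕ) = s + 1 then (if s = s' then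
          (∑ m : Fin 3, (starRingEnd ℂ) ((if pi2 m = j then z (pi1 m) - 1 else 0) -
            (if pi1 m = j then z (pi2 m) - 1 else 0)) *
            ((if pi2 m = j' then z (pi1 m) - 1 else 0) -
            (if pi1 m = j' then z (pi2 m) - 1 else 0))) else 0) else 0 := by
        intro x
        simp only [uu_ss]
        by_cases h : (x : ℕ) = s + 1
        · by_cases h2 : s = s'
          · simp only [h, h2, if_true]
          · have h5 : ¬ ((s : ℕ) + 1 = s' + 1) := fun he => h2 (Fin.ext (by omega))
            simp only [h, h2, h5, if_true, if_false, mul_zero, Finset.sum_const_zero]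
        · simp only [h, if_false, map_zero, zero_mul, Finset.sum_const_zero]
      rw [Finset.sum_congr rfl fun x _ => h4 x]
      have hs := s.2
      rw [Y839.AF.sum_ind L (s + 1) (fun _ => (if s = s' then
          (∑ m : Fin 3, (starRingEnd ℂ) ((if pi2 m = j then z (pi1 m) - 1 else 0) -
            (if pi1 m = j then z (pi2 m) - 1 else 0)) *
            ((if pi2 m = j' then z (pi1 m) - 1 else 0) -
            (if pi1 m = j' then z (pi2 m) - 1 else 0))) else 0)), if_pos (by omega)]
      have h6 : ∑ x : Fin (L - 1), DD L z (.inr (s, j)) x *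
          (starRingEnd ℂ) (DD L z (.inr (s', j')) x) =
          if s = s' then (z j - 1) * (starRingEnd ℂ) (z j' - 1) else 0 := by
        simp only [DD_inr, apply_ite (starRingEnd ℂ), map_zero, ite_mul, zero_mul, mul_ite,
          mul_zero]
        rw [Finset.sum_ite_eq, if_pos (Finset.mem_univ _)]
      rw [h6]
      by_cases h : s = s'
      · simp only [h, if_true]
        unfold cz
        fin_cases j <;> fin_cases j' <;> simp [Fin.sum_univ_three, pi1, pi2] <;> ring
      · simp [h]
    rw [Finset.sum_add_distrib, add_assoc, h3, h1]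
    unfold Y839.AF.KK
    rw [Matrix.of_apply]
    by_cases h : j = j'
    · by_cases h2 : s = s'
      · simp only [h, h2, if_true]
        ring
      · simp only [h, h2, if_true, if_false]
        ring
    · simp only [h, if_false]
      split_ifs <;> ring

end

end Pool.Agent.Y564.AF
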