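import Mathlib
import Pool.Agent.Y564.AF.SymB

set_option autoImplicit false

/-! Derivative in `lam` of the determinant of a mode (job AF2-SYM0 of the project of helper16). -/

namespace Pool.Agent.Y564.AF

open Matrix Finset
open Pool.Agent.Y16.AF
open scoped Kronecker

noncomputable section

variable {L : ℕ}

/-- the derivative in `lam` -/
def HH0 (L : ℕ) (z : Fin 3 → ℂ) : Matrix (AL L) (AL L) ℂ := Matrix.of fun a b =>
  ∑ t : Fin L, (starRingEnd ℂ) (uu z t (.inl 0) a) * uu z t (.inl 0) b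

theorem hL0_lam (lam : ℝ) (z : Fin 3 → ℂ) :
    Matrix.of (hL0 (L := L) lam z) = Matrix.of (hL0 (L := L) 0 z) + (lam : ℂ) • HH0 L z := by
  ext a b
  rw [Matrix.add_apply, Matrix.smul_apply, Matrix.of_apply, Matrix.of_apply, hL0_eq, hL0_eq]
  unfold HH0
  rw [Matrix.of_apply, Finset.smul_sum, ← Finset.sum_add_distrib]
  refine Finset.sum_congr rfl fun t _ => ?_
  have h1 : ∀ κ, wt lam κ * ((starRingEnd ℂ) (uu z t κ a) * uu z t κ b) =
      wt 0 κ * ((starRingEnd ℂ) (uu z t κ a) * uu z t κ b) +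
      if κ = .inl 0 then (lam : ℂ) * ((starRingEnd ℂ) (uu z t κ a) * uu z t κ b) else 0 := by
    intro κ
    unfold wt
    by_cases h : κ = .inl 0
    · simp only [h, if_true]
      push_cast
      ring
    · simp only [h, if_false, add_zero]
  rw [Finset.sum_congr rfl fun κ _ => h1 κ, Finset.sum_add_distrib, Finset.sum_ite_eq',
    if_pos (Finset.mem_univ _), smul_eq_mul]

/-- the Gram matrix of the gauge transformations -/
theorem DtD (z : Fin 3 → ℂ) :
    (DD L z)ᴴ * DD L z = Y839.AF.KK (L - 1) fun _ => 2 + cz z := by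
  ext s s'
  rw [Matrix.mul_apply]
  simp only [Matrix.conjTranspose_apply, ← starRingEnd_apply, Fintype.sum_sum_type,
    Fintype.sum_prod_type]
  have h1 : ∑ t : Fin L, (starRingEnd ℂ) (DD L z (.inl t) s) * DD L z (.inl t) s' =
      if s = s' then 2 else if (s : ℕ) = s' + 1 ∨ (s' : ℕ) = s + 1 then -1 else 0 := by
    rw [← bb_D]
    refine Finset.sum_congr rfl fun t _ => ?_
    rw [DD_inl, DD_inl, bb_conj]
  have h2 : ∑ x : Fin (L - 1), ∑ j : Fin 3, (starRingEnd ℂ) (DD L z (.inr (x, j)) s) *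
      DD L z (.inr (x, j)) s' = if s = s' then cz z else 0 := by
    rw [Finset.sum_eq_single s]
    · by_cases h : s = s'
      · subst h
        simp only [DD_inr, if_true]
        rfl
      · simp [DD_inr, h]
    · intro b _ hb
      simp [DD_inr, hb]
    · simp
  rw [h1, h2]
  unfold Y839.AF.KK
  rw [Matrix.of_apply]
  by_cases h : s = s'
  · simp only [h, if_true]
  · simp only [h, if_false, add_zero]

/-- the map to the links -/
def phi (L : ℕ) [NeZero L] : Option (Fin (L - 1) × Fin 3) ⊕ Fin (L - 1) → AL L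
  | .inl o => jJ L o
  | .inr s => .inl ⟨s, by omega⟩

theorem phi_bij (L : ℕ) [NeZero L] : Function.Bijective (phi L) := by
  have hL : 0 < L := Nat.pos_of_ne_zero (NeZero.ne L)
  constructor
  · rintro ((_ | a) | a) ((_ | b) | b) h
    · rfl
    · exact absurd h (by simp [phi, jJ])
    · exfalso
      simp only [phi, jJ, Sum.inl.injEq, Fin.mk.injEq] at h
      have := b.2
      omega
    · exact absurd h (by simp [phi, jJ])
    · simp only [phi, jJ, Sum.inr.injEq] at h
      rw [h]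
    · exact absurd h (by simp [phi, jJ])
    · exfalso
      simp only [phi, jJ, Sum.inl.injEq, Fin.mk.injEq] at h
      have := a.2
      omega
    · exact absurd h (by simp [phi, jJ])
    · simp only [phi, Sum.inl.injEq, Fin.mk.injEq] at h
      rw [Fin.ext h]
  · rintro (t | a)
    · by_cases h : (t : ℕ) = L - 1
      · exact ⟨.inl none, by simp only [phi, jJ]; congr 1; exact Fin.ext h.symm⟩
      · exact ⟨.inr ⟨t, by omega⟩, rfl⟩
    · exact ⟨.inl (some a), rfl⟩

/-- the determinants of the mode with and without gauge fixing term -/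
theorem fp_mode (hFP : S_FP) (L : ℕ) [NeZero L] (lam : ℝ) (z : Fin 3 → ℂ) :
    det (Matrix.of (hL0 (L := L) lam z) + DD L z * (DD L z)ᴴ) =
      det (Y839.AF.KK (L - 1) fun _ => 2 + cz z) ^ 2 *
        det ((Matrix.of (hL0 (L := L) lam z)).submatrix (jJ L) (jJ L)) := by
  obtain ⟨e, he⟩ : ∃ e : (Option (Fin (L - 1) × Fin 3) ⊕ Fin (L - 1)) ≃ AL L, ⇑e = phi L :=
    ⟨Equiv.ofBijective (phi L) (phi_bij L), rfl⟩
  have h1 := hFP ((Matrix.of (hL0 (L := L) lam z)).submatrix e e) ((DD L z).submatrix e id) (by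
    have : (Matrix.of (hL0 (L := L) lam z)).submatrix e e * (DD L z).submatrix e id =
        (Matrix.of (hL0 (L := L) lam z) * DD L z).submatrix e id :=
      Matrix.submatrix_mul_equiv _ _ _ _ _
    rw [this, hL0_DD]
    rfl) (by
    have : ((DD L z).submatrix e id)ᴴ * (Matrix.of (hL0 (L := L) lam z)).submatrix e e =
        ((DD L z)ᴴ * Matrix.of (hL0 (L := L) lam z)).submatrix id e := by
      rw [Matrix.conjTranspose_submatrix]
      exact Matrix.submatrix_mul_equiv _ _ _ _ _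
    rw [this, DD_hL0]
    rfl)
  have h2 : (Matrix.of (hL0 (L := L) lam z)).submatrix e e +
      (DD L z).submatrix e id * ((DD L z).submatrix e id)ᴴ =
      (Matrix.of (hL0 (L := L) lam z) + DD L z * (DD L z)ᴴ).submatrix e e := by
    rw [Matrix.submatrix_add, Matrix.conjTranspose_submatrix]
    congr 1
  have h3 : ((DD L z).submatrix e id)ᴴ * (DD L z).submatrix e id = (DD L z)ᴴ * DD L z := by
    rw [Matrix.conjTranspose_submatrix]
    have := Matrix.submatrix_mul_equiv (DD L z)ᴴ (DD L z) id e id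
    rw [this, Matrix.submatrix_id_id]
  have h4 : det ((DD L z).submatrix e id).toRows₂ = 1 := by
    have h5 : ((DD L z).submatrix e id).toRows₂ = Matrix.of fun s s' : Fin (L - 1) => bb s s' := by
      ext s s'
      change DD L z (e (.inr s)) s' = _
      rw [he]
      rfl
    rw [h5, Matrix.det_of_lowerTriangular]
    · refine Finset.prod_eq_one fun s _ => ?_
      rw [Matrix.of_apply]
      unfold bb
      simp
    · intro s s' h
      have h' : s < s' := by simpa using h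
      rw [Matrix.of_apply]
      unfold bb
      rw [if_neg, if_neg, sub_zero]
      · intro h6
        have : (s : ℕ) < s' := h'
        omega
      · intro h6
        have : (s : ℕ) < s' := h'
        omega
  have h6 : ((Matrix.of (hL0 (L := L) lam z)).submatrix e e).toBlocks₁₁ =
      (Matrix.of (hL0 (L := L) lam z)).submatrix (jJ L) (jJ L) := by
    ext a b
    change Matrix.of (hL0 (L := L) lam z) (e (.inl a)) (e (.inl b)) = _
    rw [he]
    rfl
  rw [h2, h3, h4, h6, Matrix.det_submatrix_equiv_self, star_one, mul_one, mul_one, DtD] at h1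
  exact h1

/-- the Bloch factors -/
theorem zk_sub (L : ℕ) [NeZero L] (k : Sp L) (j : Fin 3) :
    (starRingEnd ℂ) (zk k j - 1) * (zk k j - 1) = ((2 - 2 * Real.cos (ang k j) : ℝ) : ℂ) := by
  have h1 : zk k j = Complex.exp (((ang k j : ℝ) : ℂ) * Complex.I) := by
    unfold zk ang
    rw [ZMod.stdAddChar_apply, ZMod.toCircle_apply]
    congr 1
    push_cast
    ring
  rw [h1, Complex.exp_mul_I, ← Complex.ofReal_cos, ← Complex.ofReal_sin]
  simp only [map_sub, map_add, map_mul, Complex.conj_ofReal, Complex.conj_I, map_one]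
  have h2 : ((Real.sin (ang k j) : ℝ) : ℂ) ^ 2 = 1 - ((Real.cos (ang k j) : ℝ) : ℂ) ^ 2 := by
    have := Real.sin_sq (ang k j)
    exact_mod_cast this
  push_cast at h2 ⊢
  have hI := Complex.I_sq
  linear_combination h2 - (Complex.sin (ang k j : ℂ)) ^ 2 * hI

theorem cz_zk (L : ℕ) [NeZero L] (k : Sp L) : cz (zk k) = ((wh2 k : ℝ) : ℂ) := by
  unfold cz wh2
  rw [Complex.ofReal_sum]
  exact Finset.sum_congr rfl fun j _ => zk_sub L k j

theorem trace_fb' {m n : Type} [Fintype m] [Fintype n] (A : Matrix m m ℂ) (B : Matrix m n ℂ)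
    (C : Matrix n m ℂ) (D : Matrix n n ℂ) :
    trace (Matrix.fromBlocks A B C D) = trace A + trace D := by
  simp [Matrix.trace]

/-- blocks of the derivative -/
theorem HH0_blocks (z : Fin 3 → ℂ) : ∃ B C, HH0 L z = Matrix.fromBlocks
    (diagonal fun _ => (starRingEnd ℂ) (z 0 - 1) * (z 0 - 1)) B C
    ((Y839.AF.KK (L - 1) fun _ => 2) ⊗ₖ
      (diagonal fun j : Fin 3 => if j = 0 then (1 : ℂ) else 0)) := by
  refine ⟨(HH0 L z).toBlocks₁₂, (HH0 L z).toBlocks₂₁, ?_⟩
  conv_lhs => rw [← Matrix.fromBlocks_toBlocks (HH0 L z)]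
  congr 1
  · ext t t'
    change HH0 L z (.inl t) (.inl t') = _
    unfold HH0
    rw [Matrix.of_apply, Matrix.diagonal_apply]
    simp only [uu_tt, apply_ite (starRingEnd ℂ), map_zero, ite_mul, zero_mul, mul_ite, mul_zero]
    rw [Finset.sum_ite_eq', if_pos (Finset.mem_univ _)]
    by_cases h : t = t'
    · rw [if_pos h, if_pos h.symm, conj_one_sub]
    · rw [if_neg h, if_neg (Ne.symm h)]
  · ext ⟨s, j⟩ ⟨s', j'⟩
    change HH0 L z (.inr (s, j)) (.inr (s', j')) = _
    unfold HH0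
    rw [Matrix.of_apply, Matrix.kronecker_apply, Matrix.diagonal_apply]
    have h1 : ∀ t : Fin L, (starRingEnd ℂ) (uu z t (.inl 0) (.inr (s, j))) *
        uu z t (.inl 0) (.inr (s', j')) =
        (if j = j' then if j = 0 then 1 else 0 else 0) * (bb t s * bb t s') := by
      intro t
      rw [uu_ts, uu_ts]
      by_cases h : j = j'
      · subst h
        by_cases h2 : j = 0
        · subst h2
          simp [bb_conj]
        · simp [h2, Ne.symm h2]
      · by_cases h2 : j = 0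
        · subst h2
          simp [h]
        · simp [h, Ne.symm h2]
    rw [Finset.sum_congr rfl fun t _ => h1 t, ← Finset.mul_sum, bb_D, mul_comm]
    rfl

theorem af_sym0 : S_FP → S_EN → S_SYM0 := by
  intro hFP hEN L _ hL k hk
  obtain ⟨c0, C0, -, -, hEN⟩ := hEN
  obtain ⟨hω, -, -, hcosh, -⟩ := hEN L hL k hk
  have hL1 : 1 ≤ L := by omega
  obtain ⟨z, hz⟩ : ∃ z, z = zk k := ⟨_, rfl⟩
  obtain ⟨ω, hωe⟩ : ∃ ω, ω = en k := ⟨_, rfl⟩
  rw [← hωe] at hω hcosh
  have hcz : cz z = ((2 * Real.cosh ω - 2 : ℝ) : ℂ) := by rw [hz, cz_zk, hcosh]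
  have hz0 : (starRingEnd ℂ) (z 0 - 1) * (z 0 - 1) = ((2 - 2 * Real.cos (ang k 0) : ℝ) : ℂ) := by
    rw [hz, zk_sub]
  rw [← hz, ← hωe]
  -- the Green functions
  have hKN := Y839.AF.KN_inv hL1 hω
  have hKD := Y839.AF.KD_inv hL1 hω
  obtain ⟨KN, hKNe⟩ : ∃ KN, KN = Y839.AF.KK L fun t => ((2 * Real.cosh ω - 2 +
    (if 0 < t then 1 else 0) + (if t + 1 < L then 1 else 0) : ℝ) : ℂ) := ⟨_, rfl⟩
  obtain ⟨KD, hKDe⟩ : ∃ KD, KD = Y839.AF.KK (L - 1) fun _ => ((2 * Real.cosh ω : ℝ) : ℂ) :=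
    ⟨_, rfl⟩
  obtain ⟨GNm, hGN⟩ : ∃ G, G = Y839.AF.MN L (fun t s => ((GN L ω t s : ℝ) : ℂ)) := ⟨_, rfl⟩
  obtain ⟨GDm, hGD⟩ : ∃ G, G = Y839.AF.MD (L - 1) (fun t s => ((GD L ω t s : ℝ) : ℂ)) := ⟨_, rfl⟩
  rw [← hKNe, ← hGN] at hKN
  rw [← hKDe, ← hGD] at hKD
  obtain ⟨M0, hM0⟩ : ∃ M0, M0 = Matrix.of (hL0 (L := L) 0 z) + DD L z * (DD L z)ᴴ := ⟨_, rfl⟩
  have hM0' : M0 = Matrix.fromBlocks KN 0 0 (KD ⊗ₖ (1 : Matrix (Fin 3) (Fin 3) ℂ)) := by
    rw [hM0, M0_eq, hKNe, hKDe, hcz]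
    have e1 : (fun t : ℕ => (((2 * Real.cosh ω - 2 : ℝ) : ℂ) + (if 0 < t then 1 else 0) +
        (if t + 1 < L then 1 else 0))) = fun t => ((2 * Real.cosh ω - 2 +
        (if 0 < t then 1 else 0) + (if t + 1 < L then 1 else 0) : ℝ) : ℂ) := by
      funext t
      split_ifs <;> push_cast <;> ring
    have e2 : (fun _ : ℕ => (2 : ℂ) + ((2 * Real.cosh ω - 2 : ℝ) : ℂ)) =
        fun _ => ((2 * Real.cosh ω : ℝ) : ℂ) := by
      funext t
      push_cast
      ring
    rw [e1, e2]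
  have hG : M0 * Matrix.fromBlocks GNm 0 0 (GDm ⊗ₖ (1 : Matrix (Fin 3) (Fin 3) ℂ)) = 1 := by
    rw [hM0', Matrix.fromBlocks_multiply]
    simp only [Matrix.zero_mul, Matrix.mul_zero, add_zero, zero_add]
    rw [hKN, ← Matrix.mul_kronecker_mul, hKD, Matrix.one_mul, Matrix.one_kronecker_one,
      Matrix.fromBlocks_one]
  have hdet : det M0 ≠ 0 := by
    intro h0
    have h1 := congrArg det hG
    rw [Matrix.det_mul, h0, zero_mul, Matrix.det_one] at h1
    exact zero_ne_one h1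
  have hKD2 : (Y839.AF.KK (L - 1) fun _ => 2 + cz z) = KD := by
    rw [hKDe, hcz]
    congr 1
    funext _
    push_cast
    ring
  have hdetD : det KD ≠ 0 := by
    intro h0
    have h1 := congrArg det hKD
    rw [Matrix.det_mul, h0, zero_mul, Matrix.det_one] at h1
    exact zero_ne_one h1
  have hmode : ∀ lam : ℝ, det ((Matrix.of (hL0 (L := L) lam z)).submatrix (jJ L) (jJ L)) =
      (det KD ^ 2)⁻¹ * det (Matrix.of (hL0 (L := L) lam z) + DD L z * (DD L z)ᴴ) := by
    intro lam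
    rw [fp_mode hFP L lam z, hKD2, inv_mul_cancel_left₀ (pow_ne_zero 2 hdetD)]
  have hne : det ((Matrix.of (hL0 (L := L) 0 z)).submatrix (jJ L) (jJ L)) ≠ 0 := by
    rw [hmode, ← hM0]
    exact mul_ne_zero (inv_ne_zero (pow_ne_zero 2 hdetD)) hdet
  refine ⟨hne, ?_⟩
  -- the derivative of the determinant
  have hder : HasDerivAt (fun lam : ℝ => det (Matrix.of (hL0 (L := L) lam z) +
      DD L z * (DD L z)ᴴ)) (trace (M0.adjugate * HH0 L z)) 0 := by
    have h1 := Y153.AF.hasDerivAt_det (fun lam : ℝ => Matrix.of (hL0 (L := L) lam z) +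
      DD L z * (DD L z)ᴴ) (HH0 L z) 0 (by
      intro a b
      have e1 : (fun s : ℝ => (Matrix.of (hL0 (L := L) s z) + DD L z * (DD L z)ᴴ) a b) =
          fun s : ℝ => M0 a b + (s : ℂ) * HH0 L z a b := by
        funext s
        rw [hL0_lam, hM0]
        simp only [Matrix.add_apply, Matrix.smul_apply, smul_eq_mul]
        ring
      rw [e1]
      have h2 : HasDerivAt (fun s : ℝ => (s : ℂ)) 1 0 := Complex.ofRealCLM.hasDerivAt
      have h3 := (h2.mul_const (HH0 L z a b)).const_add (M0 a b)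
      rw [one_mul] at h3
      exact h3)
    rw [← hM0] at h1
    exact h1
  have hadj : M0.adjugate = det M0 • Matrix.fromBlocks GNm 0 0
      (GDm ⊗ₖ (1 : Matrix (Fin 3) (Fin 3) ℂ)) := by
    have h1 := Matrix.adjugate_mul M0
    calc M0.adjugate = M0.adjugate * (M0 * Matrix.fromBlocks GNm 0 0
          (GDm ⊗ₖ (1 : Matrix (Fin 3) (Fin 3) ℂ))) := by rw [hG, Matrix.mul_one]
      _ = _ := by rw [← Matrix.mul_assoc, h1, Matrix.smul_mul, Matrix.one_mul]
  have htr : trace (Matrix.fromBlocks GNm 0 0 (GDm ⊗ₖ (1 : Matrix (Fin 3) (Fin 3) ℂ)) *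
      HH0 L z) = ((WF L (ang k 0) ω : ℝ) : ℂ) := by
    obtain ⟨B, C, hBC⟩ := HH0_blocks (L := L) z
    rw [hBC, Matrix.fromBlocks_multiply, trace_fb']
    simp only [Matrix.zero_mul, add_zero, zero_add]
    rw [← Matrix.mul_kronecker_mul, Matrix.one_mul, Matrix.trace_kronecker, hz0]
    have e1 : trace (diagonal fun j : Fin 3 => if j = 0 then (1 : ℂ) else 0) = 1 := by
      rw [Matrix.trace_diagonal, Finset.sum_ite_eq', if_pos (Finset.mem_univ _)]
    have e2 : trace (GNm * diagonal fun _ => ((2 - 2 * Real.cos (ang k 0) : ℝ) : ℂ)) =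
        ((2 - 2 * Real.cos (ang k 0) : ℝ) : ℂ) * ∑ t ∈ range L, ((GN L ω t t : ℝ) : ℂ) := by
      rw [hGN, Y839.AF.tr_diag L _ (fun _ => ((2 - 2 * Real.cos (ang k 0) : ℝ) : ℂ)),
        ← Finset.sum_mul, mul_comm]
    have e3 : (Y839.AF.KK (L - 1) fun _ => (2 : ℂ)) =
        KD - diagonal fun _ => ((2 * Real.cosh ω - 2 : ℝ) : ℂ) := by
      rw [hKDe]
      ext s s'
      unfold Y839.AF.KK
      rw [Matrix.sub_apply, Matrix.of_apply, Matrix.of_apply, Matrix.diagonal_apply]
      by_cases h : s = s'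
      · rw [if_pos h, if_pos h, if_pos h]
        push_cast
        ring
      · rw [if_neg h, if_neg h, if_neg h, sub_zero]
    have e4 : trace (GDm * Y839.AF.KK (L - 1) fun _ => (2 : ℂ)) = ((L - 1 : ℕ) : ℂ) -
        ((2 * Real.cosh ω - 2 : ℝ) : ℂ) * ∑ t ∈ range (L - 1),
          ((GD L ω (t + 1) (t + 1) : ℝ) : ℂ) := by
      rw [e3, Matrix.mul_sub, _root_.mul_eq_one_comm.1 hKD, Matrix.trace_sub, Matrix.trace_one,
        Fintype.card_fin, hGD, Y839.AF.MD_eq,
        Y839.AF.tr_diag (L - 1) _ (fun _ => ((2 * Real.cosh ω - 2 : ℝ) : ℂ)),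
        ← Finset.sum_mul, mul_comm (∑ _ ∈ _, _)]
    rw [e1, e2, e4, mul_one]
    unfold WF
    push_cast
    rw [Finset.sum_sub_distrib, Finset.sum_const, Finset.card_range, nsmul_eq_mul, mul_one,
      ← Finset.mul_sum]
  have h5 := hder.const_mul ((det KD ^ 2)⁻¹)
  have h6 : (det KD ^ 2)⁻¹ * trace (M0.adjugate * HH0 L z) =
      det ((Matrix.of (hL0 (L := L) 0 z)).submatrix (jJ L) (jJ L)) *
        ((WF L (ang k 0) ω : ℝ) : ℂ) := by
    rw [hmode, ← hM0, hadj, Matrix.smul_mul, Matrix.trace_smul, htr, smul_eq_mul]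
    ring
  rw [h6] at h5
  have h7 : (fun lam : ℝ => det ((Matrix.of (hL0 (L := L) lam z)).submatrix (jJ L) (jJ L))) =
      fun lam : ℝ => (det KD ^ 2)⁻¹ * det (Matrix.of (hL0 (L := L) lam z) +
        DD L z * (DD L z)ᴴ) := by
    funext lam
    exact hmode lam
  rw [h7]
  exact h5

end

end Pool.Agent.Y564.AF
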